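import Pool.Agent.Lib.MP_ca1f03_al.Nil.AnB
import Pool.Agent.Lib.MP_ca1f03_al.Nil.Free

namespace Pool.Agent.Results.MP_ca1f03_al.Analytic

/-- `(Q, *, 1)` is a loop with left division `ld a y` and right division `rd y a`. -/
structure IsLoop {Q : Type*} [Mul Q] [One Q] (ld rd : Q → Q → Q) : Prop where
  one_mul : ∀ x : Q, 1 * x = x
  mul_one : ∀ x : Q, x * 1 = x
  mul_ld : ∀ a y : Q, a * ld a y = y
  ld_mul : ∀ a y : Q, ld a (a * y) = y
  rd_mul : ∀ y a : Q, rd y a * a = y
  mul_rd : ∀ y a : Q, rd (y * a) a = y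

/-- The operation of the principal isotope determined by `(a, b)`. -/
def iso {Q : Type*} [Mul Q] (ld rd : Q → Q → Q) (a b : Q) (x y : Q) : Q := rd x a * ld b y

/-- The flexible law. -/
def Flexible {Q : Type*} (op : Q → Q → Q) : Prop := ∀ x y, op x (op y x) = op (op x y) x

/-- The binary operation `op` on the manifold `Q` is real analytic (`⊤ : WithTop ℕ∞` is the
analytic regularity `ω`). -/
def AnalyticOp (E : Type*) [NormedAddCommGroup E] [NormedSpace ℝ E] {Q : Type*}
    [TopologicalSpace Q] [ChartedSpace E Q] (op : Q → Q → Q) : Prop :=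
  ContMDiff ((modelWithCornersSelf ℝ E).prod (modelWithCornersSelf ℝ E))
    (modelWithCornersSelf ℝ E) (⊤ : WithTop ℕ∞) fun p : Q × Q => op p.1 p.2

open Pool.Agent.Lib.MP_ca1f03_al.Nil in
theorem result {E : Type*} [NormedAddCommGroup E] [NormedSpace ℝ E] {Q : Type*}
    [TopologicalSpace Q] [T2Space Q] [ConnectedSpace Q] [ChartedSpace E Q]
    [IsManifold (modelWithCornersSelf ℝ E) (⊤ : WithTop ℕ∞) Q] [Mul Q] [One Q]
    (ld rd : Q → Q → Q) (hQ : IsLoop ld rd) (hm : AnalyticOp E fun x y : Q => x * y)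
    (hld : AnalyticOp E ld) (hrd : AnalyticOp E rd)
    (hl : ∀ b, Flexible (iso ld rd 1 b)) (hr : ∀ a, Flexible (iso ld rd a 1)) :
    (∀ x y z : Q, x * ld (y * z) x = rd x z * ld y x) ∧ ∀ a b, Flexible (iso ld rd a b) := by
  let _ : Lp Q :=
    { mul := (· * ·), one := 1, one_mul := hQ.one_mul, mul_one := hQ.mul_one, ld := ld, rd := rd
      mul_ld := hQ.mul_ld, ld_mul := hQ.ld_mul, rd_mul := hQ.rd_mul, mul_rd := hQ.mul_rd }
  have fl : ∀ a b : Q, Flexible (iso ld rd a b) ↔ ∀ u t : Q, PP b a u t = PQ b a u t := by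
    intro a b
    constructor
    · intro h u t
      have := h (u * a) t
      simp only [iso, hQ.mul_rd] at this
      exact this
    · intro h x y
      have : rd x a * ld b (rd y a * ld b (rd x a * a)) =
          rd (rd x a * ld b y) a * ld b (rd x a * a) := h (rd x a) y
      rw [hQ.rd_mul] at this
      exact this
  have hS : SUF Q := ⟨fun a => (fl a 1).1 (hr a), fun b => (fl 1 b).1 (hl b)⟩
  have hMB : ∀ c x y : Q, Lp.rd c y * Lp.ld x c = jj c (x * y) :=
    MB_analytic (E := E) ⟨hm, hld, hrd⟩ hS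
  refine ⟨fun x y z => ?_, fun a b => (fl a b).2 (UF_of_MB hS hMB b a)⟩
  have h1 := hMB x (y * z) 1
  rw [rd_one, mul_one] at h1
  exact h1.trans (hMB x y z).symm

end Pool.Agent.Results.MP_ca1f03_al.Analytic
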