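import Pool.Agent.Lib.MP_ca1f03_al.Loop

namespace Pool.Agent.Results.MP_ca1f03_al.NuclearKernel

/-- `(Q, *, 1)` is a loop with left division `ld a y` and right division `rd y a`. -/
structure IsLoop {Q : Type*} [Mul Q] [One Q] (ld rd : Q → Q → Q) : Prop where
  one_mul : ∀ x : Q, 1 * x = x
  mul_one : ∀ x : Q, x * 1 = x
  mul_ld : ∀ a y : Q, a * ld a y = y
  ld_mul : ∀ a y : Q, ld a (a * y) = y
  rd_mul : ∀ y a : Q, rd y a * a = y
  mul_rd : ∀ y a : Q, rd (y * a) a = y

/-- The operation of the principal isotope determined by `(a, b)`. -/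
def iso {Q : Type*} [Mul Q] (ld rd : Q → Q → Q) (a b : Q) (x y : Q) : Q := rd x a * ld b y

/-- The flexible law. -/
def Flexible {Q : Type*} (op : Q → Q → Q) : Prop := ∀ x y, op x (op y x) = op (op x y) x

open Pool.Agent.Lib.MP_ca1f03_al in
theorem result {Q G : Type*} [Mul Q] [One Q] [Group G] (ld rd : Q → Q → Q) (hQ : IsLoop ld rd)
    (f : Q → G) (hf : ∀ x y, f (x * y) = f x * f y)
    (hmid : ∀ n, f n = 1 → ∀ x y, (x * n) * y = x * (n * y))
    (hside : ∀ n, f n = 1 →
      (∀ x y, (n * x) * y = n * (x * y)) ∨ (∀ x y, (x * y) * n = x * (y * n)))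
    (hl : ∀ b, Flexible (iso ld rd 1 b)) (hr : ∀ a, Flexible (iso ld rd a 1)) :
    ∀ a b, Flexible (iso ld rd a b) := by
  have lc : ∀ {a x y : Q}, a * x = a * y → x = y := fun {a x y} h => by
    rw [← hQ.ld_mul a x, h, hQ.ld_mul]
  have rc : ∀ {a x y : Q}, x * a = y * a → x = y := fun {a x y} h => by
    rw [← hQ.mul_rd x a, h, hQ.mul_rd]
  have r1 : ∀ x : Q, rd x 1 = x := fun x => by
    have := hQ.mul_rd x 1
    rwa [hQ.mul_one] at this
  have l1 : ∀ x : Q, ld 1 x = x := fun x => by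
    have := hQ.ld_mul 1 x
    rwa [hQ.one_mul] at this
  have hl' : ∀ u y w : Q, (u * y) * ld u ((u * w) * y) = ((u * y) * w) * y := fun u y w => by
    have := hl u (u * y) (u * w)
    simpa only [iso, r1, hQ.ld_mul] using this
  have hr' : ∀ u y w : Q, u * (w * (u * y)) = rd (u * (w * y)) y * (u * y) := fun u y w => by
    have := hr y (u * y) (w * y)
    simpa only [iso, l1, hQ.mul_rd] using this
  have h13 : ∀ n : Q, (∀ x y, (n * x) * y = n * (x * y)) → ∀ x y, (x * y) * n = x * (y * n) := by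
    intro n hn u w
    have e1 := hl' u (ld u n) w
    have e2 := hr' u (ld u n) w
    rw [hQ.mul_ld] at e1 e2
    rw [hn] at e1
    rw [e2, ← lc e1, hQ.mul_ld, hQ.mul_rd]
  have h31 : ∀ n : Q, (∀ x y, (x * y) * n = x * (y * n)) → ∀ x y, (n * x) * y = n * (x * y) := by
    intro n hn w y
    have e1 := hl' (rd n y) y w
    have e2 := hr' (rd n y) y w
    rw [hQ.rd_mul] at e1 e2
    rw [← hn] at e2
    rw [← e1, rc e2, hQ.rd_mul, hQ.ld_mul]
  have f1 : f 1 = 1 := by
    have := hf 1 1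
    rw [hQ.one_mul] at this
    exact (mul_eq_left.1 this.symm)
  let H : Subgroup G :=
    { carrier := Set.range f
      mul_mem' := by
        rintro _ _ ⟨x, rfl⟩ ⟨y, rfl⟩
        exact ⟨x * y, hf x y⟩
      one_mem' := ⟨1, f1⟩
      inv_mem' := by
        rintro _ ⟨x, rfl⟩
        refine ⟨ld x 1, eq_inv_of_mul_eq_one_right ?_⟩
        rw [← hf, hQ.mul_ld, f1] }
  let S : Setup Q H :=
    { ld := ld, rd := rd, one_mul := hQ.one_mul, mul_one := hQ.mul_one, mul_ld := hQ.mul_ld
      ld_mul := hQ.ld_mul, rd_mul := hQ.rd_mul, mul_rd := hQ.mul_rd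
      p := fun x => ⟨f x, x, rfl⟩
      p_mul := fun x y => Subtype.ext (hf x y)
      n1 := fun n hn => (hside n (congrArg Subtype.val hn)).elim id (h31 n)
      n2 := fun n hn => hmid n (congrArg Subtype.val hn)
      n3 := fun n hn => (hside n (congrArg Subtype.val hn)).elim (h13 n) id
      s := fun g => g.2.choose
      p_s := fun g => Subtype.ext g.2.choose_spec }
  exact fun a b x y => S.uf hl hr a b x y

end Pool.Agent.Results.MP_ca1f03_al.NuclearKernel
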