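import Pool.Agent.Lib.MP_ca1f03_al.Nil.Free

namespace Pool.Agent.Results.MP_ca1f03_al.ResiduallyNilpotent

/-- `(Q, *, 1)` is a loop with left division `ld a y` and right division `rd y a`. -/
structure IsLoop {Q : Type*} [Mul Q] [One Q] (ld rd : Q → Q → Q) : Prop where
  one_mul : ∀ x : Q, 1 * x = x
  mul_one : ∀ x : Q, x * 1 = x
  mul_ld : ∀ a y : Q, a * ld a y = y
  ld_mul : ∀ a y : Q, ld a (a * y) = y
  rd_mul : ∀ y a : Q, rd y a * a = y
  mul_rd : ∀ y a : Q, rd (y * a) a = y

/-- The operation of the principal isotope determined by `(a, b)`. -/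
def iso {Q : Type*} [Mul Q] (ld rd : Q → Q → Q) (a b : Q) (x y : Q) : Q := rd x a * ld b y

/-- The flexible law. -/
def Flexible {Q : Type*} (op : Q → Q → Q) : Prop := ∀ x y, op x (op y x) = op (op x y) x

/-- `AugProd k n a`: `a` is a product, in some bracketing, of `n` elements `q - 1` of the loop
algebra `kQ`. -/
inductive AugProd (k : Type*) [CommRing k] {Q : Type*} [Mul Q] [One Q] :
    ℕ → MonoidAlgebra k Q → Prop
  | base (q : Q) : AugProd k 1 (MonoidAlgebra.single q 1 - MonoidAlgebra.single 1 1)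
  | mul {i j : ℕ} {a b : MonoidAlgebra k Q} :
      AugProd k i a → AugProd k j b → AugProd k (i + j) (a * b)

/-- The `n`-th power of the augmentation ideal of the loop algebra `kQ`. -/
noncomputable def augPow (k : Type*) [CommRing k] (Q : Type*) [Mul Q] [One Q] (n : ℕ) :
    Submodule k (MonoidAlgebra k Q) :=
  Submodule.span k {a | ∃ m, n ≤ m ∧ AugProd k m a}

open Pool.Agent.Lib.MP_ca1f03_al.Nil in
theorem result {Q : Type*} [Mul Q] [One Q] (ld rd : Q → Q → Q) (hQ : IsLoop ld rd)
    (k : Type*) [CommRing k] (h2 : IsUnit (2 : k))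
    (hsep : ∀ x y : Q, (∀ n, MonoidAlgebra.single x (1 : k) - MonoidAlgebra.single y 1 ∈
      augPow k Q n) → x = y)
    (hl : ∀ b, Flexible (iso ld rd 1 b)) (hr : ∀ a, Flexible (iso ld rd a 1)) :
    (∀ x y z : Q, x * ld (y * z) x = rd x z * ld y x) ∧ ∀ a b, Flexible (iso ld rd a b) := by
  let _ : Lp Q :=
    { mul := (· * ·), one := 1, one_mul := hQ.one_mul, mul_one := hQ.mul_one, ld := ld, rd := rd
      mul_ld := hQ.mul_ld, ld_mul := hQ.ld_mul, rd_mul := hQ.rd_mul, mul_rd := hQ.mul_rd }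
  have fl : ∀ a b : Q, Flexible (iso ld rd a b) ↔ ∀ u t : Q, PP b a u t = PQ b a u t := by
    intro a b
    constructor
    · intro h u t
      have := h (u * a) t
      simp only [iso, hQ.mul_rd] at this
      exact this
    · intro h x y
      have : rd x a * ld b (rd y a * ld b (rd x a * a)) =
          rd (rd x a * ld b y) a * ld b (rd x a * a) := h (rd x a) y
      rw [hQ.rd_mul] at this
      exact this
  have hS : SUF Q := ⟨fun a => (fl a 1).1 (hr a), fun b => (fl 1 b).1 (hl b)⟩
  have hMB : ∀ c x y : Q, Lp.rd c y * Lp.ld x c = jj c (x * y) := by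
    intro c x y
    obtain ⟨e, he⟩ := h2.exists_left_inv
    refine hsep _ _ fun n => Submodule.span_mono ?_ (MB_mod k e he hS n c x y)
    rintro a ⟨m, hm, ha⟩
    refine ⟨m, hm, ?_⟩
    clear hm
    induction ha with
    | base q => exact AugProd.base q
    | mul _ _ i1 i2 => exact i1.mul i2
  refine ⟨fun x y z => ?_, fun a b => (fl a b).2 (UF_of_MB hS hMB b a)⟩
  have h1 := hMB x (y * z) 1
  rw [rd_one, mul_one] at h1
  exact h1.trans (hMB x y z).symm

end Pool.Agent.Results.MP_ca1f03_al.ResiduallyNilpotent
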